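import Pool.Agent.H32.RK.TargetsB

/-!
# Row ZST of the board hpk_modules (MP_63b6b1_nt): the structure of the frequencies
-/

set_option autoImplicit false

open Finset NumberField Pool.Agent.H32.RQ Pool.Agent.H32.RK

namespace Pool.Agent.H80.RK

section

variable {K : Type} [Field K] [NumberField K]

theorem w_sum {ι : Type} (w : InfinitePlace K) (S : Finset ι) (f : ι → K) (c : ℝ)
    (hf : ∀ i ∈ S, w (f i) ≤ c) : w (∑ i ∈ S, f i) ≤ S.card * c := by
  have h1 : w (∑ i ∈ S, f i) = ‖∑ i ∈ S, w.embedding (f i)‖ := by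
    rw [← map_sum, InfinitePlace.norm_embedding_eq]
  rw [h1]
  calc ‖∑ i ∈ S, w.embedding (f i)‖ ≤ ∑ i ∈ S, ‖w.embedding (f i)‖ := norm_sum_le _ _
    _ ≤ ∑ _i ∈ S, c := Finset.sum_le_sum (fun i hi => by
        rw [InfinitePlace.norm_embedding_eq]; exact hf i hi)
    _ = S.card * c := by rw [Finset.sum_const, nsmul_eq_mul]

omit [NumberField K] in
theorem w_int (w : InfinitePlace K) (n : ℤ) : w ((n : ℤ) : K) = |(n : ℝ)| := by
  rw [← InfinitePlace.norm_embedding_eq, map_intCast, Complex.norm_intCast]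

theorem cb_coe {s : ℕ} (a : Mon s → ℤ) (x : Fin s → 𝓞 K) :
    ((cb a x : 𝓞 K) : K) = ∑ p, (a p : K) * ((x p.1.1 : K) * (x p.1.2 : K)) := by
  have h : algebraMap (𝓞 K) K (cb a x) = ∑ p, (a p : K) * ((x p.1.1 : K) * (x p.1.2 : K)) := by
    unfold cb nu
    rw [map_sum]
    refine Finset.sum_congr rfl fun p _ => ?_
    rw [map_mul, map_intCast, map_mul]
  exact h

theorem w_sub_le (w : InfinitePlace K) (u v : K) : w (u - v) ≤ w u + w v := by
  rw [← InfinitePlace.norm_embedding_eq, ← InfinitePlace.norm_embedding_eq w u,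
    ← InfinitePlace.norm_embedding_eq w v, map_sub]
  exact norm_sub_le _ _

theorem w_cb {s : ℕ} (w : InfinitePlace K) (a : Mon s → ℤ) (y : Fin s → 𝓞 K) (C B : ℝ)
    (hC : 0 ≤ C) (hB : 0 ≤ B) (ha : ∀ p, |(a p : ℝ)| ≤ C) (hy : Bd B y) :
    w ((cb a y : 𝓞 K) : K) ≤ md s * (C * B ^ 2) := by
  rw [cb_coe]
  have h := w_sum w Finset.univ (fun p : Mon s => (a p : K) * ((y p.1.1 : K) * (y p.1.2 : K)))
    (C * B ^ 2) (fun p _ => by
      rw [map_mul, map_mul, w_int]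
      have h1 := hy p.1.1 w
      have h2 := hy p.1.2 w
      have h3 : w (y p.1.1 : K) * w (y p.1.2 : K) ≤ B ^ 2 := by
        rw [pow_two]
        exact mul_le_mul h1 h2 (apply_nonneg _ _) hB
      exact mul_le_mul (ha p) h3 (mul_nonneg (apply_nonneg _ _) (apply_nonneg _ _)) hC)
  rwa [Finset.card_univ] at h

end

theorem pf_ZST (K : Type) [Field K] [NumberField K] (hFRQ : T_FRQ K) (hSTR : T_STR K)
    (hDLT : T_DLT K) : T_ZST K := by
  intro ι _ _ ω s hs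
  obtain ⟨CF, hCF, hF⟩ := hFRQ ι ω
  obtain ⟨CS, hCS, hS⟩ := hSTR
  obtain ⟨C0, c1, hc1, hD⟩ := hDLT s
  obtain ⟨C1, hC01, hC1⟩ : ∃ C1 : ℝ, C0 ≤ C1 ∧ 0 ≤ C1 := ⟨max C0 0, le_max_left _ _, le_max_right _ _⟩
  obtain ⟨C, hC⟩ : ∃ C : ℝ, C = CS * CF + CF + 2 * (md s * C1) ^ 2 * CF / c1 := ⟨_, rfl⟩
  have hCF0 : 0 < CF := by linarith
  have hCSCF : 0 < CS * CF := by positivity
  have hK0 : 0 ≤ 2 * (md s * C1) ^ 2 * CF / c1 := by positivity
  have hCCF : CF ≤ C := by rw [hC]; linarith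
  have hCSF : CS * CF ≤ C := by rw [hC]; linarith
  have hCK : 2 * (md s * C1) ^ 2 * CF / c1 ≤ C := by rw [hC]; linarith
  refine ⟨C, by linarith, ?_⟩
  intro b A J Q _ c x y D hb hA hbc hQ hx hy hDw z hz
  obtain ⟨θ, φ, m, hθ, hφ, hsym, hm, hcl⟩ := hF s A J Q x y z hA hQ hz
  have hA0 : (0 : ℝ) < A := by exact_mod_cast hA
  have hb0 : (0 : ℝ) < b := by exact_mod_cast hb
  obtain ⟨w0⟩ : Nonempty (InfinitePlace K) := inferInstance
  have hne : ∃ i j, mnr x y i j ≠ 0 := by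
    obtain ⟨h1, i, j, h2⟩ := hDw w0
    refine ⟨i, j, ?_⟩
    intro h
    have h3 : (((0 : 𝓞 K)) : K) = 0 := rfl
    rw [h, h3, map_zero] at h2
    linarith
  have hH : CS * (b : ℝ) ^ 4 ≤ c * (A / CF) := by
    rw [← mul_div_assoc, le_div_iff₀ hCF0]
    calc CS * (b : ℝ) ^ 4 * CF = CS * CF * (b : ℝ) ^ 4 := by ring
      _ ≤ C * (b : ℝ) ^ 4 := mul_le_mul_of_nonneg_right hCSF (by positivity)
      _ ≤ c * A := hbc
  obtain ⟨α, β, hαβ⟩ := hS s b c (A / CF) x y θ φ m hs hb hx hy hne (by positivity) hH hsym hm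
    (fun i l w => by
      rw [one_div_div]
      exact hcl i l w)
  have h4 : ∀ i l (w : InfinitePlace K),
      w ((θ - α) * x i * x l + (φ - β) * y i * y l) ≤ CF / A := by
    intro i l w
    have h1 : (θ - α) * x i * x l + (φ - β) * y i * y l =
        θ * x i * x l + φ * y i * y l - m i l := by
      rw [hαβ]; ring
    rw [h1]
    exact hcl i l w
  refine ⟨θ, φ, α, β, hθ, hφ, ?_, ?_, ?_⟩
  · intro i l
    rw [← hαβ]
    exact hm i l
  · intro i l w
    exact (h4 i l w).trans (div_le_div_of_nonneg_right hCCF hA0.le)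
  · intro w
    obtain ⟨hD0, i, j, hDij⟩ := hDw w
    obtain ⟨a, a', haa, hda⟩ := hD ((b : ℝ) ^ 4) x y hx.bd hy.bd hx.big hy.big
    have ha : ∀ p, |(a p : ℝ)| ≤ C1 := fun p => (haa p).1.trans hC01
    have ha' : ∀ p, |(a' p : ℝ)| ≤ C1 := fun p => (haa p).2.trans hC01
    have hb4 : (0 : ℝ) ≤ (b : ℝ) ^ 4 := by positivity
    -- the errors
    have herr : ∀ e : Mon s → ℤ, (∀ p, |(e p : ℝ)| ≤ C1) →
        w ((θ - α) * ((cb e x : 𝓞 K) : K) + (φ - β) * ((cb e y : 𝓞 K) : K)) ≤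
          md s * (C1 * (CF / A)) := by
      intro e he
      have h1 : (θ - α) * ((cb e x : 𝓞 K) : K) + (φ - β) * ((cb e y : 𝓞 K) : K) =
          ∑ p : Mon s, (e p : K) * ((θ - α) * x p.1.1 * x p.1.2 +
            (φ - β) * y p.1.1 * y p.1.2) := by
        rw [cb_coe, cb_coe, Finset.mul_sum, Finset.mul_sum, ← Finset.sum_add_distrib]
        refine Finset.sum_congr rfl fun p _ => ?_
        ring
      rw [h1]
      have h2 := w_sum w Finset.univ (fun p : Mon s => (e p : K) * ((θ - α) * x p.1.1 * x p.1.2 +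
            (φ - β) * y p.1.1 * y p.1.2)) (C1 * (CF / A)) (fun p _ => by
          rw [map_mul, w_int]
          exact mul_le_mul (he p) (h4 _ _ w) (apply_nonneg _ _) hC1)
      rwa [Finset.card_univ] at h2
    have h5 : (θ - α) * ((cb a x * cb a' y - cb a' x * cb a y : 𝓞 K) : K) =
        ((θ - α) * ((cb a x : 𝓞 K) : K) + (φ - β) * ((cb a y : 𝓞 K) : K)) * ((cb a' y : 𝓞 K) : K) -
        ((θ - α) * ((cb a' x : 𝓞 K) : K) + (φ - β) * ((cb a' y : 𝓞 K) : K)) *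
          ((cb a y : 𝓞 K) : K) := by
      have h50 : ((cb a x * cb a' y - cb a' x * cb a y : 𝓞 K) : K) =
          ((cb a x : 𝓞 K) : K) * ((cb a' y : 𝓞 K) : K) -
            ((cb a' x : 𝓞 K) : K) * ((cb a y : 𝓞 K) : K) := rfl
      rw [h50]
      ring
    have h6 : w (θ - α) * w ((cb a x * cb a' y - cb a' x * cb a y : 𝓞 K) : K) ≤
        2 * ((md s * (C1 * (CF / A))) * (md s * (C1 * ((b : ℝ) ^ 4) ^ 2))) := by
      rw [← map_mul, h5]
      refine (w_sub_le w _ _).trans ?_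
      rw [map_mul, map_mul]
      have h7 := herr a ha
      have h8 := herr a' ha'
      have h9 := w_cb w a' y C1 ((b : ℝ) ^ 4) hC1 hb4 ha' hy.bd
      have h10 := w_cb w a y C1 ((b : ℝ) ^ 4) hC1 hb4 ha hy.bd
      have h11 : (0 : ℝ) ≤ md s * (C1 * (CF / A)) := by positivity
      have h12 := mul_le_mul h7 h9 (apply_nonneg _ _) h11
      have h13 := mul_le_mul h8 h10 (apply_nonneg _ _) h11
      linarith
    have h14 : c1 * ((b : ℝ) ^ 4) ^ 2 * D w ≤
        w ((cb a x * cb a' y - cb a' x * cb a y : 𝓞 K) : K) :=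
      (mul_le_mul_of_nonneg_left hDij (by positivity)).trans (hda i j w)
    have h15 : w (θ - α) * (c1 * ((b : ℝ) ^ 4) ^ 2 * D w) ≤
        2 * ((md s * (C1 * (CF / A))) * (md s * (C1 * ((b : ℝ) ^ 4) ^ 2))) :=
      (mul_le_mul_of_nonneg_left h14 (apply_nonneg _ _)).trans h6
    have h16 : (0 : ℝ) < c1 * ((b : ℝ) ^ 4) ^ 2 := by positivity
    have h17 : w (θ - α) * D w * (c1 * ((b : ℝ) ^ 4) ^ 2) ≤
        (2 * (md s * C1) ^ 2 * CF / c1 / A) * (c1 * ((b : ℝ) ^ 4) ^ 2) := by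
      have h18 : (2 * (md s * C1) ^ 2 * CF / c1 / A) * (c1 * ((b : ℝ) ^ 4) ^ 2) =
          2 * ((md s * (C1 * (CF / A))) * (md s * (C1 * ((b : ℝ) ^ 4) ^ 2))) := by
        field_simp
      rw [h18]
      linarith
    have h19 := le_of_mul_le_mul_right h17 h16
    exact h19.trans (div_le_div_of_nonneg_right hCK hA0.le)

end Pool.Agent.H80.RK
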